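import Mathlib
import Pool.Agent.Helper273_FS.MainS

/-! A finite group all of whose irreducible complex characters have Frobenius–Schur indicator `1`, with a Sylow
`2`-subgroup all of whose irreducible characters are real-valued but one of which has indicator `-1`. The group is
`2^5 : (Q₈ ∘ SL₂(5))`, of order `15360`. -/

set_option autoImplicit false

open Representation

namespace Pool.Agent.Results.MP_30c208_al.RealSylowSymplectic

/-- the Frobenius–Schur indicator `(1/|H|) ∑_{h ∈ H} χ(h²)` of the character `χ` of the representation `ρ` of the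
finite group `H` -/
noncomputable def indicator {H : Type} [Group H] [Finite H] {W : Type} [AddCommGroup W] [Module ℂ W]
    (ρ : Representation ℂ H W) : ℂ :=
  (Nat.card H : ℂ)⁻¹ * ∑ᶠ h : H, ρ.character (h ^ 2)

theorem indicator_eq {H : Type} [Group H] [Fintype H] {W : Type} [AddCommGroup W] [Module ℂ W]
    (ρ : Representation ℂ H W) : indicator ρ = Pool.Agent.Helper273.FS.nu ρ := by
  unfold indicator Pool.Agent.Helper273.FS.nu
  rw [finsum_eq_sum_of_fintype]

/-- There is a finite group `G` with a Sylow `2`-subgroup `S` such that every irreducible complex character of `G`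
has Frobenius–Schur indicator `1`, every irreducible complex character of `S` is real-valued, and some irreducible
complex character of `S` has Frobenius–Schur indicator `-1`. -/
theorem result :
    ∃ (G : Type) (_ : Group G) (_ : Finite G) (S : Sylow 2 G),
      (∀ (W : Type) [AddCommGroup W] [Module ℂ W] [FiniteDimensional ℂ W] (ρ : Representation ℂ G W),
        ρ.IsIrreducible → indicator ρ = 1) ∧
      (∀ (W : Type) [AddCommGroup W] [Module ℂ W] [FiniteDimensional ℂ W] (ρ : Representation ℂ S W),
        ρ.IsIrreducible → ∀ s : S, (ρ.character s).im = 0) ∧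
      (∃ (W : Type) (_ : AddCommGroup W) (_ : Module ℂ W) (_ : FiniteDimensional ℂ W)
        (ρ : Representation ℂ S W), ρ.IsIrreducible ∧ indicator ρ = -1) := by
  refine ⟨Pool.Agent.Helper273.FS.GG, inferInstance, inferInstance, Pool.Agent.Helper273.FS.SylS, ?_, ?_, ?_⟩
  · intro W _ _ _ ρ hρ
    rw [indicator_eq]
    exact Pool.Agent.Helper273.FS.nuGG hρ
  · intro W _ _ _ ρ _ s
    have : Fintype (Pool.Agent.Helper273.FS.SylS : Subgroup Pool.Agent.Helper273.FS.GG) := Fintype.ofFinite _
    exact Pool.Agent.Helper273.FS.char_real ρ s (Pool.Agent.Helper273.FS.ss_real s)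
  · obtain ⟨W, i1, i2, i3, ρ, hρ, hν⟩ := Pool.Agent.Helper273.FS.exists_symplectic
    refine ⟨W, i1, i2, i3, ρ, hρ, ?_⟩
    rw [← hν]
    exact indicator_eq (H := Pool.Agent.Helper273.FS.SS) ρ

end Pool.Agent.Results.MP_30c208_al.RealSylowSymplectic
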